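import Pool.Agent.Helper43.LO.Goals

set_option autoImplicit false

/-! Packet GAP of project LO: the first order gaps. -/

namespace Pool.Agent.Helper39.LO

open Finset Pool.Agent.Helper33.Schur Pool.Agent.Helper43.LO

/-- coefficient on the left -/
def G0 (q : Fin 3) (k : ℕ) : ℤ :=
  ((Sp q k : ℤ) + 2 * Db q k) - ((Sp (blk k) k : ℤ) + 2 * Db (blk k) k)
/-- coefficient on the right -/
def G1 (q : Fin 3) (k : ℕ) : ℤ :=
  ((Sb q k : ℤ) + 2 * Db q (k + 1)) - ((Sb (blk k) k : ℤ) + 2 * Db (blk k) (k + 1))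
/-- constant -/
def Gc (q : Fin 3) (k : ℕ) : ℤ :=
  ((Sp q k : ℤ) - Sb q k) - ((Sp (blk k) k : ℤ) - Sb (blk k) k)

/-- the finite check -/
def Chk (q : Fin 3) (k : ℕ) : Prop :=
  q = blk k ∨ (0 ≤ G0 q k ∧ 0 ≤ G1 q k ∧ -10 ≤ Gc q k ∧
    (∀ i : Fin 6, k = e i → q = lc i → sl i ≤ G1 q k) ∧
    (∀ i : Fin 6, k + 1 = e i → q = rc i → sl i ≤ G0 q k) ∧
    ((q = 0 ∧ 29 ≤ k ∧ k ≤ 50) ∨
      ((1 ≤ G0 q k ∨ (1 ≤ G1 q k ∧ ∃ i : Fin 6, k = e i ∧ q = lc i)) ∧
       (1 ≤ G1 q k ∨ (1 ≤ G0 q k ∧ ∃ i : Fin 6, k + 1 = e i ∧ q = rc i)))))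

instance (q : Fin 3) (k : ℕ) : Decidable (Chk q k) := by
  unfold Chk; infer_instance

set_option maxRecDepth 100000 in
theorem chk_all : ∀ k : Fin 67, ∀ q : Fin 3, Chk q k.1 := by
  decide +kernel

theorem goalGAP (hBLK : G_BLK) : G_GAP := by
  intro m x q hm hx1 hx2 hq
  obtain ⟨k, hk⟩ : ∃ k, k = (x - 1) / m := ⟨_, rfl⟩
  obtain ⟨t, ht⟩ : ∃ t, t = (x - 1) % m + 1 := ⟨_, rfl⟩
  have hdm := Nat.div_add_mod (x - 1) m
  have hmod := Nat.mod_lt (x - 1) (show 0 < m by omega)
  have hxkt : x = k * m + t := by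
    rw [hk, ht, mul_comm]; omega
  have ht1 : 1 ≤ t := by omega
  have htm : t ≤ m := by omega
  have hk66 : k ≤ 66 := by
    by_contra hcon
    have h1 : 67 * m ≤ k * m := Nat.mul_le_mul_right m (by omega)
    omega
  have hcol : col m x = blk k := by rw [hk]; rfl
  have hgap : gap m q x = ((m : ℤ) - t) * G0 q k + t * G1 q k + Gc q k := by
    unfold gap
    rw [hcol]
    rw [hxkt, hBLK m q k t hm hk66 ht1 htm, hBLK m (blk k) k t hm hk66 ht1 htm]
    unfold G0 G1 Gc
    push_cast [Nat.cast_sub ht1, Nat.cast_sub htm]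
    ring
  rw [hcol] at hq
  have hchk := chk_all ⟨k, by omega⟩ q
  rcases hchk with h | ⟨h0, h1, hc, hR, hL, hrest⟩
  · exact absurd h hq
  change 0 ≤ G0 q k at h0
  change 0 ≤ G1 q k at h1
  change -10 ≤ Gc q k at hc
  have hmt : (0 : ℤ) ≤ (m : ℤ) - t := by
    have : (t : ℤ) ≤ m := by exact_mod_cast htm
    linarith
  have ht0 : (1 : ℤ) ≤ t := by exact_mod_cast ht1
  have hxZ : (x : ℤ) = k * m + t := by rw [hxkt]; push_cast; ring
  have hm0 : 0 < m := by omega
  refine ⟨?_, ?_, ?_⟩
  · rintro i ⟨hi1, hi2, hi3⟩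
    have hki : k = e i := by
      have a1 : ¬ k < e i := by
        intro hlt
        have h2 : (k + 1) * m ≤ e i * m := Nat.mul_le_mul_right m hlt
        rw [add_mul] at h2
        omega
      have a2 : ¬ e i < k := by
        intro hlt
        have h2 : (e i + 1) * m ≤ k * m := Nat.mul_le_mul_right m hlt
        have h3 : (4 * e i + 1) * m = 4 * (e i * m) + m := by ring
        rw [h3] at hi2
        rw [add_mul] at h2
        omega
      omega
    have h2 := hR i hki hi3
    change sl i ≤ G1 q k at h2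
    rw [hgap, hxZ, hki]
    rw [hki] at h0 h1 hc h2
    nlinarith [mul_nonneg hmt h0]
  · rintro i ⟨hi1, hi2, hi3⟩
    have hki : k + 1 = e i := by
      have a1 : ¬ k + 1 < e i := by
        intro hlt
        have h2 : (k + 2) * m ≤ e i * m := Nat.mul_le_mul_right m hlt
        have h3 : (k + 2) * m = k * m + 2 * m := by ring
        have h4 : 4 * e i * m = 4 * (e i * m) := by ring
        rw [h4] at hi2
        rw [h3] at h2
        omega
      have a2 : ¬ e i < k + 1 := by
        intro hlt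
        have h2 : e i * m ≤ k * m := Nat.mul_le_mul_right m (by omega)
        omega
      omega
    have h2 := hL i hki hi3
    change sl i ≤ G0 q k at h2
    have h3 : (e i : ℤ) = k + 1 := by rw [← hki]; push_cast; ring
    rw [hgap, hxZ, h3]
    nlinarith [mul_nonneg (by linarith : (0 : ℤ) ≤ t) h1]
  · intro hP hE
    rcases hrest with ⟨hq0, hk1, hk2⟩ | ⟨hA, hB⟩
    · exfalso
      apply hP
      refine ⟨?_, ?_, hq0⟩
      · have h2 : 29 * m ≤ k * m := Nat.mul_le_mul_right m hk1
        omega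
      · have h2 : (k + 1) * m ≤ 51 * m := Nat.mul_le_mul_right m (by simp at hk2; omega)
        rw [add_mul] at h2
        omega
    · rw [hgap]
      rcases hA with hA | ⟨hA1, i, hi1, hi2⟩
      · change 1 ≤ G0 q k at hA
        rcases hB with hB | ⟨hB1, i, hi1, hi2⟩
        · change 1 ≤ G1 q k at hB
          nlinarith
        · have h2 := (hE i).2
          have h3 : 4 * x + m ≤ 4 * e i * m := by
            by_contra hcon
            apply h2
            refine ⟨?_, by omega, hi2⟩
            rw [← hi1]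
            change x ≤ (k + 1) * m
            rw [add_mul]
            omega
          rw [← hi1] at h3
          change 4 * x + m ≤ 4 * (k + 1) * m at h3
          have h4 : 4 * (k + 1) * m = 4 * (k * m) + 4 * m := by ring
          rw [h4] at h3
          have h5 : 4 * t + m ≤ 4 * m := by omega
          have h6 : 4 * (t : ℤ) + m ≤ 4 * m := by exact_mod_cast h5
          nlinarith [mul_nonneg (by linarith : (0 : ℤ) ≤ t) h1]
      · change 1 ≤ G1 q k at hA1
        have h2 := (hE i).1
        have h3 : (4 * e i + 1) * m < 4 * x := by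
          by_contra hcon
          apply h2
          refine ⟨?_, by omega, hi2⟩
          rw [← hi1]
          change k * m < x
          omega
        rw [← hi1] at h3
        change (4 * k + 1) * m < 4 * x at h3
        have h4 : (4 * k + 1) * m = 4 * (k * m) + m := by ring
        rw [h4] at h3
        have h5 : m ≤ 4 * t := by omega
        have h6 : (m : ℤ) ≤ 4 * t := by exact_mod_cast h5
        nlinarith [mul_nonneg hmt h0]

end Pool.Agent.Helper39.LO
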